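import Pool.Agent.Q157.DC.Stm

set_option autoImplicit false

/-! # Project DC, jobs Gd and geo -/

open Finset Filter Topology
open scoped symmDiff

namespace Pool.Agent.Q26.DC

open Pool.Agent.Q157.DC

theorem gd : S_Gd := by
  classical
  intro n S v
  obtain ⟨E, hE⟩ : ∃ E : Vx n → Finset (Fin n), E = fun v' =>
      univ.filter (fun i => nb (v ∆ {i}) v' ∨ v ∆ {i} = v') := ⟨_, rfl⟩
  have hcard : ∀ v', v' ≠ v → (E v').card ≤ 2 := by
    intro v' hv'
    have hkey : ∀ i ∈ E v', i ∈ v ∆ v' ∧ (v ∆ v').card ≤ 2 := by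
      intro i hi
      rw [hE, mem_filter] at hi
      have hd0 : v ∆ v' ≠ ∅ := by
        intro h
        exact hv' (symmDiff_eq_bot.1 h).symm
      rcases hi.2 with h | h
      · unfold nb at h
        have e : (v ∆ {i}) ∆ v' = (v ∆ v') ∆ {i} := by
          rw [symmDiff_assoc, symmDiff_comm {i} v', ← symmDiff_assoc]
        rw [e] at h
        by_cases hi2 : i ∈ v ∆ v'
        · refine ⟨hi2, ?_⟩
          have e2 : (v ∆ v') ∆ {i} = (v ∆ v').erase i := by
            ext j
            simp only [mem_symmDiff, mem_singleton, mem_erase]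
            by_cases hj : j = i
            · subst hj
              simp [mem_symmDiff] at hi2
              simp [mem_symmDiff]
              tauto
            · simp [hj]
          rw [e2, card_erase_of_mem hi2] at h
          omega
        · exfalso
          have e2 : (v ∆ v') ∆ {i} = insert i (v ∆ v') := by
            ext j
            by_cases hj : j = i
            · subst hj
              rw [mem_symmDiff, mem_insert]
              simp only [mem_singleton, true_and, hi2, not_false_eq_true, or_true, true_or]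
            · rw [mem_symmDiff, mem_insert]
              simp only [mem_singleton, hj, not_false_eq_true, and_true, false_and, or_false, false_or]
          rw [e2, card_insert_of_notMem hi2] at h
          exact hd0 (card_eq_zero.1 (by omega))
      · have e : v ∆ v' = {i} := by
          rw [← h, ← symmDiff_assoc, symmDiff_self, bot_symmDiff]
        rw [e]
        simp
    by_cases hne : (E v').Nonempty
    · obtain ⟨i, hi⟩ := hne
      exact (card_le_card fun j hj => (hkey j hj).1).trans (hkey i hi).2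
    · rw [not_nonempty_iff_eq_empty.1 hne]
      simp
  have hsub : (univ : Finset (Fin n)) ⊆ Gd S v ∪ (S.erase v).biUnion E := by
    intro i _
    rw [mem_union]
    by_cases h : i ∈ Gd S v
    · exact Or.inl h
    · right
      unfold Gd at h
      rw [mem_filter] at h
      push Not at h
      obtain ⟨v', h1, h2, h3⟩ := h (mem_univ _)
      rw [mem_biUnion]
      refine ⟨v', mem_erase.2 ⟨h2, h1⟩, ?_⟩
      rw [hE, mem_filter]
      refine ⟨mem_univ _, ?_⟩
      by_cases h4 : nb (v ∆ {i}) v'
      · exact Or.inl h4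
      · exact Or.inr (h3 h4)
  have h1 := card_le_card hsub
  rw [card_univ, Fintype.card_fin] at h1
  have h2 := card_union_le (Gd S v) ((S.erase v).biUnion E)
  have h3 : ((S.erase v).biUnion E).card ≤ ∑ v' ∈ S.erase v, (E v').card := card_biUnion_le
  have h4 : ∑ v' ∈ S.erase v, (E v').card ≤ ∑ _v' ∈ S.erase v, 2 :=
    sum_le_sum fun v' hv' => hcard v' (ne_of_mem_erase hv')
  rw [sum_const, smul_eq_mul] at h4
  have h5 : (S.erase v).card ≤ S.card := card_le_card (erase_subset _ _)
  omega

theorem geo (h1 : S_perm_rec) (h2 : S_perm_asym) (h3 : S_geo2) : S_geo := by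
  intro pv pe hpv hpv1 hpe hpe1 ε hε
  obtain ⟨lam, hlam⟩ : ∃ lam : ℝ, lam = 1 / (pv * pe) := ⟨_, rfl⟩
  have hpp : 0 < pv * pe := mul_pos hpv hpe
  have hlam1 : 1 ≤ lam := by
    rw [hlam, le_div_iff₀ hpp, one_mul]
    calc pv * pe ≤ 1 * 1 := mul_le_mul hpv1 hpe1 hpe.le zero_le_one
      _ = 1 := one_mul 1
  obtain ⟨C, hC, hg⟩ := h2 lam hlam1 (fun k => ∑ σ : Equiv.Perm (Fin k), lam ^ cl σ)
    (fun k => sum_nonneg fun σ _ => by positivity) (h1 lam hlam1)
  have ht1 : Tendsto (fun k : ℕ => C / (k : ℝ)) atTop (𝓝 0) := tendsto_const_div_atTop_nhds_zero_nat C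
  have ht2 : Tendsto (fun k : ℕ => lam ^ k / (k.factorial : ℝ)) atTop (𝓝 0) :=
    FloorSemiring.tendsto_pow_div_factorial_atTop lam
  have ht := ht1.add ht2
  rw [add_zero] at ht
  obtain ⟨k₀, hk₀⟩ := (ht.eventually (gt_mem_nhds hε)).exists_forall_of_atTop
  refine ⟨k₀ + 1, by omega, fun n u w hk => ?_⟩
  have hk1 : 1 ≤ (u ∆ w).card := by omega
  have h4 := h3 pv pe hpv hpv1 hpe hpe1 n u w _ rfl hk1
  refine h4.trans ?_
  have h5 := hk₀ (u ∆ w).card (by omega)
  have h6 := hg (u ∆ w).card hk1
  have hf : (0 : ℝ) < ((u ∆ w).card.factorial : ℝ) := by exact_mod_cast Nat.factorial_pos _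
  have h7 : (∑ σ : Equiv.Perm (Fin (u ∆ w).card), lam ^ cl σ) / ((u ∆ w).card.factorial : ℝ) ≤
      1 + C / ((u ∆ w).card : ℝ) := by
    rw [div_le_iff₀ hf]
    linarith
  rw [← hlam]
  linarith

end Pool.Agent.Q26.DC
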