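import Pool.Agent.Q274.DC.Stm

set_option autoImplicit false

open scoped Classical

namespace Pool.Agent.Q26.DC

open Pool.Agent.Q274.DC

theorem dJ_ne {F : Type} [Field F] {n : ℕ} (a : Fin n → F) (ha : ∀ i, a i ≠ 0)
    (J : Finset (Fin n)) : dJ a J ≠ 0 := by
  unfold dJ
  exact mul_ne_zero (Finset.prod_ne_zero_iff.2 fun i _ => ha i)
    (Finset.prod_ne_zero_iff.2 fun i _ => ha i)

theorem pts (h1 : S_ONE) (h2 : S_CHI) (h3 : S_AFF) (h4 : S_CON) (h5 : S_SUM) : S_PTS := by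
  intro F _ _ t ht a ha
  by_cases hq : Fintype.card F % 3 = 1
  · obtain ⟨χ, hχ, hχ3, hroots⟩ := h2 F hq
    obtain ⟨ψ, hψ⟩ : ∃ ψ : AddChar F ℂ, ψ.IsPrimitive :=
      ⟨_, AddChar.FiniteField.primitiveChar_to_Complex_isPrimitive F⟩
    obtain ⟨hg, haff⟩ := h3 F χ ψ hχ hχ3 hroots hψ
    have hcon := h4 F χ ψ hχ hχ3 hroots hψ t a ha
    have hsum := h5 F χ hχ3 t ht a ha _ _ _ hg
    rw [hsum] at hcon
    have q0 : (Fintype.card F : ℂ) ≠ 0 := Nat.cast_ne_zero.2 Fintype.card_ne_zero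
    have hS : ∑ J ∈ Finset.powersetCard t (Finset.univ : Finset (Fin (2 * t + 3))),
        (χ (dJ a J) ^ 2 * gaussSum χ ψ ^ 3 + χ (dJ a J) * gaussSum (χ ^ 2) ψ ^ 3) =
        (Fintype.card F : ℂ) * ∑ J ∈ Finset.powersetCard t (Finset.univ : Finset (Fin (2 * t + 3))),
          ((aff (dJ a J) : ℂ) - (Fintype.card F : ℂ)) := by
      rw [Finset.mul_sum]
      exact Finset.sum_congr rfl fun J _ => (haff _ (dJ_ne a ha J)).symm
    rw [hS] at hcon
    have key : (cone a : ℂ) = (Fintype.card F : ℂ) ^ (2 * t + 2) + ((Fintype.card F : ℂ) - 1) *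
      (Fintype.card F : ℂ) ^ t * ∑ J ∈ Finset.powersetCard t (Finset.univ : Finset (Fin (2 * t + 3))),
        ((aff (dJ a J) : ℂ) - (Fintype.card F : ℂ)) := by
      apply mul_left_cancel₀ q0
      rw [hcon]
      ring
    have : ((cone a : ℤ) : ℂ) = (((Fintype.card F : ℤ) ^ (2 * t + 2) + ((Fintype.card F : ℤ) - 1) *
      (Fintype.card F : ℤ) ^ t * ∑ J ∈ Finset.powersetCard t (Finset.univ : Finset (Fin (2 * t + 3))),
        (aff (dJ a J) - (Fintype.card F : ℤ)) : ℤ) : ℂ) := by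
      push_cast
      exact key
    exact_mod_cast this
  · obtain ⟨hc, hD⟩ := h1 F t hq a ha
    rw [hc, Finset.sum_eq_zero (fun J _ => by rw [hD, sub_self]), mul_zero, add_zero]

end Pool.Agent.Q26.DC
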