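import Pool.Agent.Q274.DC.Stm2

set_option autoImplicit false

open scoped Classical

namespace Pool.Agent.Q26.DC

open Pool.Agent.Q274.DC

theorem sti_card (p : ℕ) [Fact p.Prime] (k : Type) [Field k] [Fintype k] [Algebra (ZMod p) k]
    (hk : Module.finrank (ZMod p) k = 2) :
    (Finset.univ.filter fun x : k => Algebra.trace (ZMod p) k x = 0 ∧ x ≠ 0).card = p - 1 := by
  have hsurj := Algebra.trace_surjective (ZMod p) k
  have h1 := LinearMap.finrank_range_add_finrank_ker (Algebra.trace (ZMod p) k)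
  rw [LinearMap.range_eq_top.2 hsurj, finrank_top, Module.finrank_self, hk] at h1
  have h2 : Module.finrank (ZMod p) (LinearMap.ker (Algebra.trace (ZMod p) k)) = 1 := by omega
  have h3 : Nat.card (LinearMap.ker (Algebra.trace (ZMod p) k)) = p := by
    rw [Module.natCard_eq_pow_finrank (K := ZMod p), h2, Nat.card_zmod, pow_one]
  have h4 : (Finset.univ.filter fun x : k => Algebra.trace (ZMod p) k x = 0).card =
      Nat.card (LinearMap.ker (Algebra.trace (ZMod p) k)) := by
    rw [← Fintype.card_subtype, ← Nat.card_eq_fintype_card]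
    rfl
  have h5 : (Finset.univ.filter fun x : k => Algebra.trace (ZMod p) k x = 0 ∧ x ≠ 0) =
      (Finset.univ.filter fun x : k => Algebra.trace (ZMod p) k x = 0).erase 0 := by
    ext x
    simp only [Finset.mem_filter, Finset.mem_univ, true_and, Finset.mem_erase]
    exact and_comm
  rw [h5, Finset.card_erase_of_mem (by simp), h4, h3]

theorem sti : S_STI := by
  intro p hp hp3 k _ _ _ hk χ ψ₀ hχ hχ3 hψ
  have hp2 : 2 ≤ p := hp.out.two_le
  obtain ⟨m, hm⟩ : ∃ m, p = 3 * m + 2 := ⟨p / 3, by omega⟩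
  have h3 : ∀ x : k, x ≠ 0 → χ x ^ 3 = 1 := by
    intro x hx
    rw [← MulChar.pow_apply' χ three_ne_zero x, hχ3, MulChar.one_apply hx.isUnit]
  have hne : ∀ x : k, x ≠ 0 → χ x ≠ 0 := by
    intro x hx h
    have h4 := h3 x hx
    rw [h] at h4
    norm_num at h4
  have hone : ∀ x : k, x ≠ 0 → χ x ^ (p - 1) = 1 → χ x = 1 := by
    intro x hx h
    have h4 : p - 1 = 3 * m + 1 := by omega
    rwa [h4, pow_succ, pow_mul, h3 x hx, one_pow, one_mul] at h
  have hK : ∀ a : ZMod p, a ≠ 0 → χ (algebraMap (ZMod p) k a) = 1 := by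
    intro a ha
    have ha' : algebraMap (ZMod p) k a ≠ 0 := (map_ne_zero _).2 ha
    refine hone _ ha' ?_
    rw [← map_pow, ← map_pow, ZMod.pow_card_sub_one_eq_one ha, map_one, map_one]
  have htr : ∀ x : k, x ≠ 0 → Algebra.trace (ZMod p) k x = 0 → χ x = 1 := by
    intro x hx h0
    have h1 := FiniteField.algebraMap_trace_eq_sum_pow (ZMod p) k x
    rw [hk, h0, map_zero, Finset.sum_range_succ, Finset.sum_range_one, pow_zero, pow_one, pow_one,
      Nat.card_zmod] at h1
    have h2 : x ^ p = -1 * x := by linear_combination -h1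
    have h4 : χ x ^ p = χ x := by
      have h5 := hK (-1) (neg_ne_zero.2 one_ne_zero)
      rw [map_neg, map_one] at h5
      rw [← map_pow, h2, map_mul, h5, one_mul]
    apply hone x hx
    have h5 : χ x ^ (p - 1) * χ x = 1 * χ x := by
      rw [← pow_succ, Nat.sub_add_cancel (by omega), one_mul, h4]
    exact mul_right_cancel₀ (hne x hx) h5
  obtain ⟨S, hSdef⟩ : ∃ S, S = ∑ x : k, χ x * ψ₀ (Algebra.trace (ZMod p) k x) := ⟨_, rfl⟩
  rw [← hSdef]
  have hψp : ψ₀.IsPrimitive := AddChar.IsPrimitive.of_ne_one hψ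
  have hS : ∀ a : ZMod p, a ≠ 0 → ∑ x : k, χ x * ψ₀ (a * Algebra.trace (ZMod p) k x) = S := by
    intro a ha
    have ha' : algebraMap (ZMod p) k a ≠ 0 := (map_ne_zero _).2 ha
    symm
    rw [hSdef, ← Equiv.sum_comp (Equiv.mulLeft₀ (algebraMap (ZMod p) k a) ha')]
    refine Finset.sum_congr rfl fun x _ => ?_
    simp only [Equiv.mulLeft₀_apply]
    rw [map_mul, hK a ha, one_mul, ← Algebra.smul_def, map_smul, smul_eq_mul]
  have h0 : ∑ x : k, χ x * ψ₀ ((0 : ZMod p) * Algebra.trace (ZMod p) k x) = 0 := by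
    simp only [zero_mul, AddChar.map_zero_eq_one, mul_one]
    exact MulChar.sum_eq_zero_of_ne_one hχ
  have hsum1 : ∑ a : ZMod p, ∑ x : k, χ x * ψ₀ (a * Algebra.trace (ZMod p) k x) =
      ((p : ℂ) - 1) * S := by
    rw [← Finset.add_sum_erase _ _ (Finset.mem_univ (0 : ZMod p)), h0, zero_add,
      Finset.sum_congr rfl fun a ha => hS a (Finset.ne_of_mem_erase ha), Finset.sum_const,
      Finset.card_erase_of_mem (Finset.mem_univ _), Finset.card_univ, ZMod.card, nsmul_eq_mul,
      Nat.cast_sub (by omega), Nat.cast_one]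
  have hsum2 : ∑ a : ZMod p, ∑ x : k, χ x * ψ₀ (a * Algebra.trace (ZMod p) k x) =
      ∑ x : k, (if Algebra.trace (ZMod p) k x = 0 ∧ x ≠ 0 then (p : ℂ) else 0) := by
    rw [Finset.sum_comm]
    refine Finset.sum_congr rfl fun x _ => ?_
    rw [← Finset.mul_sum, AddChar.sum_mulShift _ hψp, ZMod.card]
    by_cases hx : x = 0
    · subst hx
      simp [MulChar.map_nonunit χ not_isUnit_zero]
    · by_cases ht : Algebra.trace (ZMod p) k x = 0
      · rw [if_pos ht, if_pos ⟨ht, hx⟩, htr x hx ht, one_mul]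
      · rw [if_neg ht, if_neg fun h => ht h.1]
        simp
  have hsum3 : ∑ x : k, (if Algebra.trace (ZMod p) k x = 0 ∧ x ≠ 0 then (p : ℂ) else 0) =
      ((p : ℂ) - 1) * p := by
    rw [← Finset.sum_filter, Finset.sum_const, sti_card p k hk, nsmul_eq_mul,
      Nat.cast_sub (by omega), Nat.cast_one]
  have hp1 : (p : ℂ) - 1 ≠ 0 := by
    rw [Ne, sub_eq_zero]
    exact_mod_cast (by omega : p ≠ 1)
  exact mul_left_cancel₀ hp1 (hsum1.symm.trans (hsum2.trans hsum3))

end Pool.Agent.Q26.DC
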